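import Pool.Agent.H.MP_d25c28_al.A

set_option autoImplicit false

namespace Pool.Agent.Cube

def atoms (T : Set ℕ) : Set ℕ :=
  {s : ℕ | s ∈ T ∧ s ≠ 0 ∧ ¬ ∃ a ∈ T, ∃ b ∈ T, a ≠ 0 ∧ b ≠ 0 ∧ a + b = s}

theorem closure_atoms (T : AddSubmonoid ℕ) : AddSubmonoid.closure (atoms T) = T := by
  apply le_antisymm
  · exact AddSubmonoid.closure_le.2 fun x hx => hx.1
  · intro x
    induction x using Nat.strong_induction_on with
    | _ x ih =>
      intro hx
      by_cases h0 : x = 0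
      · subst h0; exact zero_mem _
      by_cases h : ∃ a ∈ (T : Set ℕ), ∃ b ∈ (T : Set ℕ), a ≠ 0 ∧ b ≠ 0 ∧ a + b = x
      · obtain ⟨a, ha, b, hb, a0, b0, rfl⟩ := h
        exact add_mem (ih a (by omega) ha) (ih b (by omega) hb)
      · exact AddSubmonoid.subset_closure ⟨hx, h0, h⟩

theorem atom_not_mem (T : AddSubmonoid ℕ) {a : ℕ} (ha : a ∈ atoms T) {U : Set ℕ}
    (hU : U ⊆ T) (haU : a ∉ U) : a ∉ AddSubmonoid.closure U := by
  have : ∀ x ∈ AddSubmonoid.closure U, x ∈ T ∧ x ≠ a := by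
    intro x hx
    induction hx using AddSubmonoid.closure_induction with
    | mem x hx => exact ⟨hU hx, fun h => haU (h ▸ hx)⟩
    | zero => exact ⟨zero_mem _, fun h => ha.2.1 h.symm⟩
    | add x y _ _ hx hy =>
      refine ⟨add_mem hx.1 hy.1, fun h => ?_⟩
      by_cases x0 : x = 0
      · exact hy.2 (by omega)
      by_cases y0 : y = 0
      · exact hx.2 (by omega)
      exact ha.2.2 ⟨x, hx.1, y, hy.1, x0, y0, h⟩
  exact fun h => (this a h).2 rfl

theorem InZ.ge {g b c x : ℤ} (hg : 0 ≤ g) (hb : 0 ≤ b) (hc : 0 ≤ c) (hx : InZ g b c x)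
    (h0 : x ≠ 0) : g ≤ x := by
  obtain ⟨e1, e2, e3, y, a1, a2, a3, hy, rfl⟩ := InZ.split hx h0
  have := hy.nonneg hg hb hc
  rcases a1 with rfl | rfl <;> rcases a2 with rfl | rfl <;> rcases a3 with rfl | rfl <;> linarith

/-- the eight vertices -/
def cubeL (g b c : ℕ) : List ℕ :=
  [g, g + 1, g + b, g + b + 1, g + c, g + c + 1, g + c + b, g + c + b + 1]

theorem cubeL_mem {g b c x : ℕ} : x ∈ cubeL g b c ↔ ∃ e1 e2 e3 : ℤ, (e1 = 0 ∨ e1 = 1) ∧
    (e2 = 0 ∨ e2 = 1) ∧ (e3 = 0 ∨ e3 = 1) ∧ (x : ℤ) = g + e1 + e2 * b + e3 * c := by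
  constructor
  · intro h
    simp only [cubeL, List.mem_cons, List.not_mem_nil, or_false] at h
    rcases h with rfl | rfl | rfl | rfl | rfl | rfl | rfl | rfl
    · exact ⟨0, 0, 0, by simp, by simp, by simp, by push_cast; ring⟩
    · exact ⟨1, 0, 0, by simp, by simp, by simp, by push_cast; ring⟩
    · exact ⟨0, 1, 0, by simp, by simp, by simp, by push_cast; ring⟩
    · exact ⟨1, 1, 0, by simp, by simp, by simp, by push_cast; ring⟩
    · exact ⟨0, 0, 1, by simp, by simp, by simp, by push_cast; ring⟩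
    · exact ⟨1, 0, 1, by simp, by simp, by simp, by push_cast; ring⟩
    · exact ⟨0, 1, 1, by simp, by simp, by simp, by push_cast; ring⟩
    · exact ⟨1, 1, 1, by simp, by simp, by simp, by push_cast; ring⟩
  · rintro ⟨e1, e2, e3, a1, a2, a3, h⟩
    simp only [cubeL, List.mem_cons, List.not_mem_nil, or_false]
    rcases a1 with rfl | rfl <;> rcases a2 with rfl | rfl <;> rcases a3 with rfl | rfl <;> omega

theorem cubeL_card {g b c : ℕ} (hb : 1 < b) (hc : b + 1 < c) :
    (cubeL g b c).toFinset.card = 8 := by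
  rw [List.toFinset_card_of_nodup]
  · rfl
  · simp only [cubeL, List.nodup_cons, List.mem_cons, List.not_mem_nil, or_false, not_or,
      List.nodup_nil, not_false_eq_true, and_true]
    omega

theorem InZ.gen {g b c e1 e2 e3 : ℤ} (a1 : e1 = 0 ∨ e1 = 1) (a2 : e2 = 0 ∨ e2 = 1)
    (a3 : e3 = 0 ∨ e3 = 1) : InZ g b c (g + e1 + e2 * b + e3 * c) :=
  ⟨1, e1, e2, e3, by omega, by omega, by omega, by omega, by omega, by omega, by ring⟩

section A
variable {s j : ℤ}

theorem gA_big (hs : 2 ≤ s) : 1 + bA s + cA s < gA s ∧ 3 * s < gA s ∧ 0 < bA s ∧ 0 < cA s := by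
  unfold gA bA cA
  have : 2 * s ^ 2 ≤ s ^ 3 := by nlinarith [sq_nonneg s]
  refine ⟨by nlinarith, by nlinarith, by omega, by positivity⟩

theorem bigA (hs : 2 ≤ s) {z : ℤ} (h1 : FA s - gA s < z) (h2 : z ≠ FA s) : SA s z := by
  obtain ⟨g1, g2, g3, g4⟩ := gA_big hs
  rcases coverA hs z with h | h | h
  · exact h
  · have := InZ.ge (by omega) g3.le g4.le h (by omega)
    omega
  · exfalso
    unfold FA at h1
    nlinarith [h.2]

def TA (s j : ℤ) (z : ℤ) : Prop := SA s z ∨ (s * gA s - s ≤ z ∧ z < s * gA s - s + j)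

theorem TA_ge (hs : 2 ≤ s) {x : ℤ} (hx : TA s j x) (h0 : x ≠ 0) : gA s ≤ x := by
  obtain ⟨g1, g2, g3, g4⟩ := gA_big hs
  rcases hx with h | h
  · exact InZ.ge (by omega) g3.le g4.le h h0
  · nlinarith [h.1]

theorem TA_pf (hs : 2 ≤ s) (hj : j ≤ s) {x t : ℤ} (h1 : s * gA s - 2 * s ≤ x) (h2 : x < s * gA s)
    (ht : TA s j t) (h0 : t ≠ 0) (hF : x + t ≠ FA s) : TA s j (x + t) := by
  obtain ⟨g1, g2, g3, g4⟩ := gA_big hs
  rcases ht with h | h
  · exact Or.inl (pfA hs h1 h2 h h0)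
  · refine Or.inl (bigA hs ?_ hF)
    unfold FA
    linarith [h.1]

theorem TA_add (hs : 2 ≤ s) (hj : j ≤ s) {x y : ℤ} (hx : TA s j x) (hy : TA s j y) :
    TA s j (x + y) := by
  by_cases x0 : x = 0
  · simpa [x0] using hy
  by_cases y0 : y = 0
  · simpa [y0] using hx
  rcases hx with h | h
  · rcases hy with h' | h'
    · exact Or.inl (InZ.add h h')
    · rw [add_comm]
      exact Or.inl (pfA hs (by linarith [h'.1]) (by linarith [h'.2]) h x0)
  · rcases hy with h' | h'
    · exact Or.inl (pfA hs (by linarith [h.1]) (by linarith [h.2]) h' y0)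
    · obtain ⟨g1, g2, g3, g4⟩ := gA_big hs
      have : FA s < x + y := by unfold FA; linarith [h.1, h'.1]
      exact Or.inl (bigA hs (by omega) (by omega))

theorem TA_F (hs : 2 ≤ s) (hj : j ≤ s) : ¬ TA s j (FA s) := by
  obtain ⟨g1, g2, g3, g4⟩ := gA_big hs
  rintro (h | h)
  · exact notFA hs h
  · have := h.2
    unfold FA at this
    nlinarith

theorem TA_as (hs : 2 ≤ s) (hj : j ≤ s) {x t : ℤ} (h1 : ¬ TA s j x) (h2 : ¬ TA s j (FA s - x))
    (ht : TA s j t) (h0 : t ≠ 0) : TA s j (x + t) := by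
  rcases coverA hs x with h | h | h
  · exact absurd (Or.inl h) h1
  · exact absurd (Or.inl h) h2
  · refine TA_pf hs hj h.1 h.2 ht h0 fun hF => h2 ?_
    rw [← hF]; simpa using ht

end A

theorem mainA (j B : ℕ) : ∃ (A Q : Finset ℕ) (T : AddSubmonoid ℕ) (F : ℕ), A.card = 8 + j ∧
    atoms T = A ∧ F ∉ T ∧ (∀ y, F < y → y ∈ T) ∧
    (∀ x, x ≤ F → x ∉ T → F - x ∉ T → ∀ t ∈ T, t ≠ 0 → x + t ∈ T) ∧
    B < Q.card ∧ ∀ x ∈ Q, x ≤ F ∧ x ∉ T ∧ F - x ∉ T := by
  obtain ⟨r, hr⟩ : ∃ r : ℕ, r = j + B + 2 := ⟨_, rfl⟩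
  have hs : (2 : ℤ) ≤ r := by omega
  have hj : (j : ℤ) ≤ r := by omega
  obtain ⟨g1, g2, g3, g4⟩ := gA_big hs
  obtain ⟨g, hg⟩ : ∃ g : ℕ, (g : ℤ) = gA r := ⟨(gA r).toNat, by omega⟩
  obtain ⟨b, hb⟩ : ∃ b : ℕ, (b : ℤ) = bA r := ⟨(bA r).toNat, by omega⟩
  obtain ⟨c, hc⟩ : ∃ c : ℕ, (c : ℤ) = cA r := ⟨(cA r).toNat, by omega⟩
  have hrg : 2 * gA r ≤ r * gA r := mul_le_mul_of_nonneg_right hs (by omega)
  obtain ⟨p, hp⟩ : ∃ p : ℕ, (p : ℤ) = r * gA r - r := ⟨(r * gA r - r).toNat, by omega⟩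
  obtain ⟨F, hF⟩ : ∃ F : ℕ, (F : ℤ) = FA r := ⟨(FA r).toNat, Int.toNat_of_nonneg (by unfold FA; linarith)⟩
  have hFp : (F : ℤ) = 2 * p - 1 := by rw [hF, hp]; unfold FA; ring
  let T : AddSubmonoid ℕ :=
    { carrier := {z | TA r j z}
      zero_mem' := Or.inl (InZ.zero _ _ _)
      add_mem' := fun {x y} hx hy => by
        have := TA_add hs hj hx hy
        simpa using this }
  have mT : ∀ z : ℕ, z ∈ T ↔ TA r j z := fun z => Iff.rfl
  have hb1 : 1 < b := by unfold bA at hb; omega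
  have hc1 : b + 1 < c := by
    unfold bA at hb; unfold cA at hc
    have : (b : ℤ) + 1 < c := by rw [hb, hc]; nlinarith
    omega
  refine ⟨(cubeL g b c).toFinset ∪ Finset.Ico p (p + j), Finset.Ico (p + j) (p + r), T, F,
    ?_, ?_, ?_, ?_, ?_, ?_, ?_⟩
  · rw [Finset.card_union_of_disjoint, cubeL_card hb1 hc1]
    · simp
    · rw [Finset.disjoint_left]
      intro x hx hx'
      rw [List.mem_toFinset, cubeL_mem] at hx
      obtain ⟨e1, e2, e3, a1, a2, a3, h⟩ := hx
      rw [Finset.mem_Ico] at hx'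
      have : 3 * gA r ≤ r * gA r ∨ j = 0 := by
        by_cases h0 : j = 0
        · exact Or.inr h0
        · exact Or.inl (mul_le_mul_of_nonneg_right (by omega) (by omega))
      rcases a1 with rfl | rfl <;> rcases a2 with rfl | rfl <;> rcases a3 with rfl | rfl <;> omega
  · ext x
    simp only [atoms, Set.mem_ofPred_eq, Finset.coe_union, Set.mem_union, Finset.mem_coe,
      List.mem_toFinset, cubeL_mem, Finset.mem_Ico, SetLike.mem_coe, mT]
    constructor
    · rintro ⟨hx | hx, x0, hn⟩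
      · left
        obtain ⟨e1, e2, e3, y, a1, a2, a3, hy, h⟩ := InZ.split hx (by omega)
        refine ⟨e1, e2, e3, a1, a2, a3, ?_⟩
        have y0 := hy.nonneg (by omega) g3.le g4.le
        have gen := InZ.gen (g := gA r) (b := bA r) (c := cA r) a1 a2 a3
        have gp : 0 < gA r + e1 + e2 * bA r + e3 * cA r := by
          rcases a1 with rfl | rfl <;> rcases a2 with rfl | rfl <;> rcases a3 with rfl | rfl <;>
            omega
        by_contra hne
        refine hn ⟨(gA r + e1 + e2 * bA r + e3 * cA r).toNat, Or.inl ?_, y.toNat, Or.inl ?_,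
          by omega, ?_, by omega⟩
        · rw [Int.toNat_of_nonneg gp.le]; exact gen
        · rw [Int.toNat_of_nonneg y0]; exact hy
        · rw [hg, hb, hc] at hne; omega
      · right; omega
    · rintro (⟨e1, e2, e3, a1, a2, a3, h⟩ | h)
      · rw [hg, hb, hc] at h
        have gen := InZ.gen (g := gA r) (b := bA r) (c := cA r) a1 a2 a3
        have gp : 0 < (x : ℤ) ∧ (x : ℤ) < 2 * gA r := by
          rcases a1 with rfl | rfl <;> rcases a2 with rfl | rfl <;> rcases a3 with rfl | rfl <;>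
            omega
        refine ⟨Or.inl (h ▸ gen), by omega, ?_⟩
        rintro ⟨u, hu, v, hv, u0, v0, huv⟩
        have := TA_ge hs hu (by omega)
        have := TA_ge hs hv (by omega)
        omega
      · refine ⟨Or.inr (by omega), by omega, ?_⟩
        rintro ⟨u, hu, v, hv, u0, v0, huv⟩
        have u1 := TA_ge hs hu (by omega)
        have v1 := TA_ge hs hv (by omega)
        rcases hu with hu | hu
        · rcases hv with hv | hv
          · have := InZ.add hu hv
            refine notPA hs (p := x) (by omega) (by omega) ?_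
            rw [← huv]; push_cast; exact this
          · omega
        · omega
  · rw [mT, hF]; exact TA_F hs hj
  · intro y hy
    exact Or.inl (bigA hs (by omega) (by omega))
  · intro x hx h1 h2 t ht t0
    rw [mT] at *
    push_cast
    refine TA_as hs hj h1 ?_ ht (by omega)
    rwa [Nat.cast_sub hx, hF] at h2
  · simp; omega
  · intro x hx
    rw [Finset.mem_Ico] at hx
    have hxF : x ≤ F := by omega
    refine ⟨hxF, ?_, ?_⟩
    · rintro (h | h)
      · exact notPA hs (by omega) (by omega) h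
      · omega
    · rintro (h | h)
      · exact notPA hs (by omega) (by omega) h
      · omega

end Pool.Agent.Cube
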