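import Mathlib

set_option autoImplicit false

namespace Pool.Agent.Cube

/-- integers `n g + k1 + k2 b + k3 c` with `0 ≤ k_i ≤ n` -/
def InZ (g b c z : ℤ) : Prop :=
  ∃ n k1 k2 k3 : ℤ, 0 ≤ k1 ∧ k1 ≤ n ∧ 0 ≤ k2 ∧ k2 ≤ n ∧ 0 ≤ k3 ∧ k3 ≤ n ∧
    z = n * g + k1 + k2 * b + k3 * c

theorem InZ.add {g b c x y : ℤ} (hx : InZ g b c x) (hy : InZ g b c y) : InZ g b c (x + y) := by
  obtain ⟨n, k1, k2, k3, h1, h2, h3, h4, h5, h6, rfl⟩ := hx
  obtain ⟨m, l1, l2, l3, j1, j2, j3, j4, j5, j6, rfl⟩ := hy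
  exact ⟨n + m, k1 + l1, k2 + l2, k3 + l3, by omega, by omega, by omega, by omega, by omega,
    by omega, by ring⟩

theorem InZ.zero (g b c : ℤ) : InZ g b c 0 := ⟨0, 0, 0, 0, le_rfl, le_rfl, le_rfl, le_rfl, le_rfl,
  le_rfl, by ring⟩

theorem InZ.nonneg {g b c x : ℤ} (hg : 0 ≤ g) (hb : 0 ≤ b) (hc : 0 ≤ c) (hx : InZ g b c x) :
    0 ≤ x := by
  obtain ⟨n, k1, k2, k3, h1, h2, h3, h4, h5, h6, rfl⟩ := hx
  have : 0 ≤ n := by omega
  positivity

/-- a nonzero element is a generator plus an element -/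
theorem InZ.split {g b c x : ℤ} (hx : InZ g b c x) (h0 : x ≠ 0) :
    ∃ e1 e2 e3 y : ℤ, (e1 = 0 ∨ e1 = 1) ∧ (e2 = 0 ∨ e2 = 1) ∧ (e3 = 0 ∨ e3 = 1) ∧ InZ g b c y ∧
      x = g + e1 + e2 * b + e3 * c + y := by
  obtain ⟨n, k1, k2, k3, h1, h2, h3, h4, h5, h6, rfl⟩ := hx
  have hn : 1 ≤ n := by
    by_contra h
    have a0 : n = 0 := by omega
    have a1 : k1 = 0 := by omega
    have a2 : k2 = 0 := by omega
    have a3 : k3 = 0 := by omega
    subst a0 a1 a2 a3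
    simp at h0
  refine ⟨min k1 1, min k2 1, min k3 1, (n - 1) * g + (k1 - min k1 1) + (k2 - min k2 1) * b +
    (k3 - min k3 1) * c, by omega, by omega, by omega,
    ⟨n - 1, _, _, _, by omega, by omega, by omega, by omega, by omega, by omega, rfl⟩, by ring⟩

/-- mixed radix digits -/
theorem digits (g b c z : ℤ) (hg : 0 < g) (hb : 0 < b) (hc : 0 < c) :
    ∃ n k1 k2 k3 : ℤ, 0 ≤ k1 ∧ k1 < b ∧ 0 ≤ k2 ∧ 0 ≤ k3 ∧ k1 + k2 * b < c ∧
      k1 + k2 * b + k3 * c < g ∧ z = n * g + k1 + k2 * b + k3 * c := by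
  have h1 := Int.emod_add_mul_ediv z g
  have h2 := Int.emod_add_mul_ediv (z % g) c
  have h3 := Int.emod_add_mul_ediv (z % g % c) b
  have a1 := Int.emod_nonneg z hg.ne'
  have a2 := Int.emod_lt_of_pos z hg
  have a3 := Int.emod_nonneg (z % g) hc.ne'
  have a4 := Int.emod_lt_of_pos (z % g) hc
  have a5 := Int.emod_nonneg (z % g % c) hb.ne'
  have a6 := Int.emod_lt_of_pos (z % g % c) hb
  refine ⟨z / g, z % g % c % b, z % g % c / b, z % g / c, a5, a6, Int.ediv_nonneg a3 hb.le,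
    Int.ediv_nonneg a1 hc.le, by linarith [mul_comm b (z % g % c / b)], ?_, ?_⟩
  · linarith [mul_comm b (z % g % c / b), mul_comm c (z % g / c)]
  · linarith [mul_comm b (z % g % c / b), mul_comm c (z % g / c), mul_comm g (z / g)]

theorem keyA (s n k1 k2 k3 : ℤ) (h1 : 0 ≤ k1) (h2 : k1 < 2 * s + 1) (h3 : 0 ≤ k2) (h4 : 0 ≤ k3)
    (b2 : k2 ≤ s) (b2' : k2 = s → k1 < s) (b3 : k3 ≤ s) (b3' : k3 = s → k1 < s ∧ k2 = 0) :
    (k1 ≤ n ∧ k2 ≤ n ∧ k3 ≤ n) ∨
      (0 ≤ k1 - s - 1 ∧ k1 - s - 1 ≤ n - 1 ∧ k2 + 1 ≤ n - 1 ∧ k3 + s ≤ n - 1) ∨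
      (0 ≤ k1 - s - 1 ∧ k1 - s - 1 ≤ n ∧ k2 + s + 1 ≤ n ∧ 0 ≤ k3 - 1 ∧ k3 - 1 ≤ n) ∨
      (2 * s - k1 ≤ 2 * s - 1 - n ∧ 0 ≤ s - 1 - k2 ∧ s - 1 - k2 ≤ 2 * s - 1 - n ∧
        0 ≤ s - 1 - k3 ∧ s - 1 - k3 ≤ 2 * s - 1 - n) ∨
      (0 ≤ s - 1 - k1 ∧ s - 1 - k1 ≤ 2 * s - 2 - n ∧ s - k2 ≤ 2 * s - 2 - n ∧
        2 * s - 1 - k3 ≤ 2 * s - 2 - n) ∨
      (0 ≤ s - 1 - k1 ∧ s - 1 - k1 ≤ 2 * s - 1 - n ∧ 2 * s - k2 ≤ 2 * s - 1 - n ∧
        0 ≤ s - 2 - k3 ∧ s - 2 - k3 ≤ 2 * s - 1 - n) ∨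
      (n = s - 1 ∧ k2 = s ∧ k3 = s - 1) ∨ (n = s - 1 ∧ k3 = s) := by
  by_cases c1 : k1 ≤ n ∧ k2 ≤ n ∧ k3 ≤ n
  · exact Or.inl c1
  refine Or.inr ?_
  by_cases c4 : 2 * s - k1 ≤ 2 * s - 1 - n ∧ 0 ≤ s - 1 - k2 ∧ s - 1 - k2 ≤ 2 * s - 1 - n ∧
        0 ≤ s - 1 - k3 ∧ s - 1 - k3 ≤ 2 * s - 1 - n
  · exact Or.inr (Or.inr (Or.inl c4))
  rcases lt_trichotomy k1 s with h | h | h
  · by_cases c5 : s - 1 - k1 ≤ 2 * s - 2 - n ∧ s - k2 ≤ 2 * s - 2 - n ∧
        2 * s - 1 - k3 ≤ 2 * s - 2 - n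
    · exact Or.inr (Or.inr (Or.inr (Or.inl ⟨by omega, c5⟩)))
    refine Or.inr (Or.inr (Or.inr (Or.inr ?_)))
    have d5 : s - 1 + k1 < n ∨ s - 2 + k2 < n ∨ k3 ≤ n := by omega
    have d1 : n < k1 ∨ n < k2 ∨ n < k3 := by omega
    have d4 : k1 ≤ n ∨ k2 = s ∨ s + k2 < n ∨ k3 = s ∨ s + k3 < n := by omega
    clear c1 c4 c5
    by_cases f3 : k3 = s
    · have := (b3' f3).2
      clear b2' b3'
      refine Or.inr (Or.inr ?_)
      omega
    clear b3'
    by_cases f2 : k2 = s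
    · clear b2'
      by_cases f4 : k3 = s - 1
      · refine Or.inr (Or.inl ?_)
        omega
      · refine Or.inl ?_
        omega
    · clear b2'
      refine Or.inl ?_
      omega
  · exfalso
    omega
  · by_cases c2 : k1 - s - 1 ≤ n - 1 ∧ k2 + 1 ≤ n - 1 ∧ k3 + s ≤ n - 1
    · exact Or.inl ⟨by omega, c2⟩
    refine Or.inr (Or.inl ?_)
    omega

section A
variable (s : ℤ)

def gA : ℤ := 2 * s ^ 3 + 2 * s ^ 2 + s
def bA : ℤ := 2 * s + 1
def cA : ℤ := 2 * s ^ 2 + 2 * s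
def FA : ℤ := 2 * s * gA s - 2 * s - 1
def SA (z : ℤ) : Prop := InZ (gA s) (bA s) (cA s) z

variable {s}

theorem coverA (hs : 2 ≤ s) (z : ℤ) :
    SA s z ∨ SA s (FA s - z) ∨ (s * gA s - 2 * s ≤ z ∧ z < s * gA s) := by
  have hg : 0 < gA s := by unfold gA; positivity
  have hb : 0 < bA s := by unfold bA; positivity
  have hc : 0 < cA s := by unfold cA; positivity
  obtain ⟨n, k1, k2, k3, h1, h2, h3, h4, h5, h6, rfl⟩ := digits _ _ _ z hg hb hc
  have e1 : cA s = s * bA s + s := by unfold cA bA; ring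
  have e2 : gA s = s * cA s + s := by unfold cA gA; ring
  have e3 : bA s = 2 * s + 1 := rfl
  have b2 : k2 ≤ s := by
    by_contra h
    have : (s + 1) * bA s ≤ k2 * bA s := mul_le_mul_of_nonneg_right (by omega) hb.le
    nlinarith
  have b2' : k2 = s → k1 < s := by
    rintro rfl
    linarith
  have b3 : k3 ≤ s := by
    by_contra h
    have : (s + 1) * cA s ≤ k3 * cA s := mul_le_mul_of_nonneg_right (by omega) hc.le
    have : 0 ≤ k2 * bA s := by positivity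
    nlinarith
  have b3' : k3 = s → k1 < s ∧ k2 = 0 := by
    rintro rfl
    have h7 : k1 + k2 * bA k3 < k3 := by linarith
    have : k2 = 0 := by
      by_contra h
      have : 1 * bA k3 ≤ k2 * bA k3 := mul_le_mul_of_nonneg_right (by omega) hb.le
      omega
    subst this
    exact ⟨by simpa using h7, rfl⟩
  have key := keyA s n k1 k2 k3 h1 h2 h3 h4 b2 b2' b3 b3'
  rcases key with h | h | h | h | h | h | h | h
  · exact Or.inl ⟨n, k1, k2, k3, by omega, by omega, by omega, by omega, by omega, by omega, rfl⟩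
  · exact Or.inl ⟨n - 1, k1 - s - 1, k2 + 1, k3 + s, by omega, by omega, by omega, by omega,
      by omega, by omega, by unfold gA bA cA; ring⟩
  · exact Or.inl ⟨n, k1 - s - 1, k2 + s + 1, k3 - 1, by omega, by omega, by omega, by omega,
      by omega, by omega, by unfold gA bA cA; ring⟩
  · exact Or.inr (Or.inl ⟨2 * s - 1 - n, 2 * s - k1, s - 1 - k2, s - 1 - k3, by omega, by omega,
      by omega, by omega, by omega, by omega, by unfold FA gA bA cA; ring⟩)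
  · exact Or.inr (Or.inl ⟨2 * s - 2 - n, s - 1 - k1, s - k2, 2 * s - 1 - k3, by omega, by omega,
      by omega, by omega, by omega, by omega, by unfold FA gA bA cA; ring⟩)
  · exact Or.inr (Or.inl ⟨2 * s - 1 - n, s - 1 - k1, 2 * s - k2, s - 2 - k3, by omega, by omega,
      by omega, by omega, by omega, by omega, by unfold FA gA bA cA; ring⟩)
  · obtain ⟨rfl, rfl, rfl⟩ := h
    have := b2' rfl
    refine Or.inr (Or.inr ⟨?_, ?_⟩) <;> nlinarith
  · obtain ⟨rfl, rfl⟩ := h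
    obtain ⟨h8, rfl⟩ := b3' rfl
    refine Or.inr (Or.inr ⟨?_, ?_⟩) <;> nlinarith

theorem notFA (hs : 2 ≤ s) : ¬ SA s (FA s) := by
  rintro ⟨n, k1, k2, k3, h1, h2, h3, h4, h5, h6, h⟩
  have hg : 0 < gA s := by unfold gA; positivity
  have hb : 0 < bA s := by unfold bA; positivity
  have hc : 0 < cA s := by unfold cA; positivity
  have e1 : cA s = s * bA s + s := by unfold cA bA; ring
  have e2 : gA s = s * cA s + s := by unfold cA gA; ring
  have e3 : bA s = 2 * s + 1 := rfl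
  have p2 : 0 ≤ k2 * bA s := by positivity
  have p3 : 0 ≤ k3 * cA s := by positivity
  have q2 : k2 * bA s ≤ n * bA s := mul_le_mul_of_nonneg_right h4 hb.le
  have q3 : k3 * cA s ≤ n * cA s := mul_le_mul_of_nonneg_right h6 hc.le
  unfold FA at h
  have n1 : n ≤ 2 * s - 1 := by
    by_contra h'
    have : (2 * s) * gA s ≤ n * gA s := mul_le_mul_of_nonneg_right (by omega) hg.le
    linarith
  have n2 : n = 2 * s - 1 := by
    by_contra h'
    have r1 : n * gA s ≤ (2 * s - 2) * gA s := mul_le_mul_of_nonneg_right (by omega) hg.le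
    have r2 : n * bA s ≤ (2 * s - 2) * bA s := mul_le_mul_of_nonneg_right (by omega) hb.le
    have r3 : n * cA s ≤ (2 * s - 2) * cA s := mul_le_mul_of_nonneg_right (by omega) hc.le
    have : n ≤ 2 * s - 2 := by omega
    unfold gA bA cA at *
    nlinarith
  subst n2
  have m1 : k3 ≤ s - 1 := by
    by_contra h'
    have : s * cA s ≤ k3 * cA s := mul_le_mul_of_nonneg_right (by omega) hc.le
    nlinarith
  have m2 : k3 = s - 1 := by
    by_contra h'
    have : k3 * cA s ≤ (s - 2) * cA s := mul_le_mul_of_nonneg_right (by omega) hc.le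
    unfold gA bA cA at *
    nlinarith
  subst m2
  have m3 : k2 ≤ s - 1 := by
    by_contra h'
    have : s * bA s ≤ k2 * bA s := mul_le_mul_of_nonneg_right (by omega) hb.le
    unfold gA bA cA at *
    nlinarith
  have : k2 * bA s ≤ (s - 1) * bA s := mul_le_mul_of_nonneg_right m3 hb.le
  unfold gA bA cA at *
  nlinarith

theorem pfA (hs : 2 ≤ s) {p x : ℤ} (h1 : s * gA s - 2 * s ≤ p) (h2 : p < s * gA s)
    (hx : SA s x) (h0 : x ≠ 0) : SA s (p + x) := by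
  obtain ⟨e1, e2, e3, y, a1, a2, a3, hy, rfl⟩ := InZ.split hx h0
  rw [← add_assoc]
  refine InZ.add ?_ hy
  obtain ⟨k, rfl⟩ : ∃ k, p = s * gA s - 2 * s + k := ⟨p - (s * gA s - 2 * s), by ring⟩
  have k0 : 0 ≤ k := by linarith
  have k1 : k < 2 * s := by linarith
  by_cases hk : k < s
  · rcases a2 with rfl | rfl
    · exact ⟨s, k + e1, s, s - 1 + e3, by omega, by omega, by omega, by omega, by omega, by omega,
        by unfold gA bA cA; ring⟩
    · exact ⟨s + 1, k + e1 + 1, 0, e3, by omega, by omega, by omega, by omega, by omega, by omega,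
        by unfold gA bA cA; ring⟩
  · rcases a3 with rfl | rfl
    · exact ⟨s, k - s + e1, e2, s, by omega, by omega, by omega, by omega, by omega, by omega,
        by unfold gA bA cA; ring⟩
    · exact ⟨s + 1, k - s + e1, s + e2, 0, by omega, by omega, by omega, by omega, by omega,
        by omega, by unfold gA bA cA; ring⟩

theorem notPA (hs : 2 ≤ s) {p : ℤ} (h1 : s * gA s - 2 * s ≤ p) (h2 : p < s * gA s) :
    ¬ SA s p := by
  intro hp
  have hg : 2 < gA s := by unfold gA; nlinarith [sq_nonneg s, pow_pos (show 0 < s by omega) 3]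
  have h0 : p ≠ 0 := by nlinarith
  have := pfA hs (p := FA s - p) (by unfold FA; linarith) (by unfold FA; linarith) hp h0
  rw [sub_add_cancel] at this
  exact notFA hs this

end A

end Pool.Agent.Cube
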