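import Pool.Agent.H.MP_d25c28_al.B

set_option autoImplicit false

namespace Pool.Agent.Cube

theorem memZ (T : AddSubmonoid ℕ) (x : ℤ) :
    x ∈ ((↑) '' (T : Set ℕ) : Set ℤ) ↔ 0 ≤ x ∧ x.toNat ∈ T := by
  constructor
  · rintro ⟨n, hn, rfl⟩
    exact ⟨by omega, by simpa using hn⟩
  · rintro ⟨h1, h2⟩
    exact ⟨x.toNat, h2, by omega⟩

/-- integer form of the construction -/
theorem mainZ (e B : ℕ) (he : 8 ≤ e) : ∃ (A : Finset ℕ) (F : ℤ) (G : Set ℤ), A.card = e ∧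
    (∀ a ∈ A, a ∉ AddSubmonoid.closure ((A : Set ℕ) \ {a})) ∧
    ((AddSubmonoid.closure (A : Set ℕ) : Set ℕ)ᶜ).Finite ∧
    G = (↑) '' (AddSubmonoid.closure (A : Set ℕ) : Set ℕ) ∧
    IsGreatest Gᶜ F ∧ 0 ≤ F ∧ 0 ∈ G ∧ (∀ x ∈ G, 0 ≤ x) ∧ (∀ x ∈ G, ∀ y ∈ G, x + y ∈ G) ∧
    (∀ x, x ∉ G → F - x ∉ G → ∀ t ∈ G, t ≠ 0 → x + t ∈ G) ∧
    {x | x ∉ G ∧ ∀ t ∈ G, t ≠ 0 → x + t ∈ G}.Finite ∧
    B < {x | x ∉ G ∧ ∀ t ∈ G, t ≠ 0 → x + t ∈ G}.ncard := by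
  obtain ⟨j, rfl⟩ := Nat.exists_eq_add_of_le he
  obtain ⟨A, Q, T, F, hA, hat, hF, hbig, has, hQ, hQ'⟩ := mainA j B
  have hcl : AddSubmonoid.closure (A : Set ℕ) = T := by rw [← hat, closure_atoms]
  have hfin : ((T : Set ℕ)ᶜ).Finite :=
    (Set.finite_le_nat F).subset fun y hy => not_lt.1 fun h' => hy (hbig y h')
  have hbigZ : ∀ y : ℤ, (F : ℤ) < y → y ∈ ((↑) '' (T : Set ℕ) : Set ℤ) := fun y hy =>
    (memZ T y).2 ⟨by omega, hbig _ (by omega)⟩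
  have hFZ : (F : ℤ) ∉ ((↑) '' (T : Set ℕ) : Set ℤ) := fun h => hF (by simpa using ((memZ T _).1 h).2)
  have hasZ : ∀ x : ℤ, x ∉ ((↑) '' (T : Set ℕ) : Set ℤ) →
      F - x ∉ ((↑) '' (T : Set ℕ) : Set ℤ) → ∀ t ∈ ((↑) '' (T : Set ℕ) : Set ℤ), t ≠ 0 →
      x + t ∈ ((↑) '' (T : Set ℕ) : Set ℤ) := by
    intro x h1 h2 t ht t0
    have x1 : x ≤ F := not_lt.1 fun h => h1 (hbigZ x h)
    have x0 : 0 ≤ x := not_lt.1 fun h => h2 (hbigZ _ (by omega))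
    obtain ⟨n, rfl⟩ := Int.eq_ofNat_of_zero_le x0
    obtain ⟨t, ht, rfl⟩ := ht
    refine ⟨n + t, has n (by omega) (fun h => h1 ⟨n, h, rfl⟩)
      (fun h => h2 ⟨F - n, h, by omega⟩) t ht (by omega), by push_cast; rfl⟩
  have hPF : {x : ℤ | x ∉ ((↑) '' (T : Set ℕ) : Set ℤ) ∧
      ∀ t ∈ ((↑) '' (T : Set ℕ) : Set ℤ), t ≠ 0 → x + t ∈ ((↑) '' (T : Set ℕ) : Set ℤ)}.Finite := by
    refine (Set.finite_Icc (-(F : ℤ) - 1) F).subset fun x hx => ⟨?_, ?_⟩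
    · have := ((memZ T _).1 (hx.2 (F + 1) (hbigZ _ (by omega)) (by omega))).1
      omega
    · exact not_lt.1 fun h => hx.1 (hbigZ x h)
  subst hcl
  refine ⟨A, F, _, hA, ?_, hfin, rfl, ⟨hFZ, fun y hy => not_lt.1 fun h => hy (hbigZ y h)⟩,
    by omega, ⟨0, zero_mem _, rfl⟩, ?_, ?_, hasZ, hPF, ?_⟩
  · intro a ha
    refine atom_not_mem (AddSubmonoid.closure (A : Set ℕ)) (hat.ge ha) ?_ (by simp)
    exact fun x hx => AddSubmonoid.subset_closure hx.1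
  · rintro x ⟨n, -, rfl⟩; omega
  · rintro x ⟨n, hn, rfl⟩ y ⟨m, hm, rfl⟩
    exact ⟨n + m, add_mem hn hm, by push_cast; rfl⟩
  · refine lt_of_lt_of_le ?_ (Set.ncard_le_ncard (s := (↑) '' (Q : Set ℕ)) ?_ hPF)
    · rwa [Set.ncard_image_of_injective _ Nat.cast_injective, Set.ncard_coe_finset]
    · rintro x ⟨n, hn, rfl⟩
      obtain ⟨a1, a2, a3⟩ := hQ' n hn
      have b2 : (n : ℤ) ∉ ((↑) '' (AddSubmonoid.closure (A : Set ℕ) : Set ℕ) : Set ℤ) :=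
        fun h => a2 (by simpa using ((memZ _ _).1 h).2)
      refine ⟨b2, hasZ n b2 fun h => a3 ?_⟩
      have := ((memZ _ _).1 h).2
      rwa [show ((F : ℤ) - n).toNat = F - n by omega] at this

end Pool.Agent.Cube
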